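import Pool.Agent.Work.MP_16c8e2_co.Sharp

open FSDiam

/-- The largest diameter `D` of `FS(K_{k,n-k}, Y)` over all connected non-bipartite `Y ≠ C_n` on
`n` vertices with no non-trivial `k`-bridge has the exact order `n ^ 3 / k + n ^ 2 log n`. -/
theorem Pool.Agent.Results.MP_16c8e2_co.DiameterOrder.result (k n : ℕ) (hk : 3 ≤ k)
    (hn : 2 * k ≤ n) :
    (n : ℕ∞) ^ 3 + k * (n : ℕ∞) ^ 2 * (Nat.log 2 n : ℕ) ≤ 112000 * k * maxDiam k n ∧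
      k * maxDiam k n ≤ 10 ^ 26 * ((n : ℕ∞) ^ 3 + k * (n : ℕ∞) ^ 2 * (Nat.log 2 n : ℕ)) :=
  ⟨le_maxDiam hk hn, by
    have h := maxDiam_le2 hk hn
    rwa [Nat.cast_pow, Nat.cast_ofNat] at h⟩
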